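import Pool.Agent.Run7.h979.JR.Iface

/-!
# Project JR (helper979): piece FLP
-/

set_option autoImplicit false

namespace Run7.h118.JR

open Run7.h979.JR

theorem flp_local {Q : Type} [TopologicalSpace Q] (F : Q × (ℕ → Bool) → List Bool)
    (hF : IsLocallyConstant F) (x : Q × (ℕ → Bool)) :
    ∃ (m : ℕ) (O : Set Q), IsOpen O ∧ x.1 ∈ O ∧ ∀ y : Q × (ℕ → Bool), y.1 ∈ O →
      (∀ i < m, y.2 i = x.2 i) → F y = F x := by
  have h1 : IsOpen (F ⁻¹' {F x}) := hF {F x}
  rw [isOpen_prod_iff] at h1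
  obtain ⟨u, v, hu, hv, hxu, hxv, huv⟩ := h1 x.1 x.2 rfl
  rw [isOpen_pi_iff] at hv
  obtain ⟨I, w, hw, hIw⟩ := hv x.2 hxv
  refine ⟨I.sup id + 1, u, hu, hxu, fun y hy hyi => ?_⟩
  have h2 : y ∈ u ×ˢ v := by
    refine ⟨hy, hIw ?_⟩
    intro a ha
    have h3 : a < I.sup id + 1 := Nat.lt_succ_of_le (Finset.le_sup (f := id) ha)
    rw [hyi a h3]
    exact (hw a ha).2
  exact huv h2

theorem t_FLP : S_FLP := by
  intro Q Y _ _ z F hF
  have key : ∃ n : ℕ, ∀ (q : Q) (c c' : ℕ → Bool), (∀ i < n, c i = c' i) →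
      F (q, c) = F (q, c') := by
    choose m O hO hxO hc using flp_local F hF
    have hopen : ∀ x : Q × (ℕ → Bool),
        IsOpen {y : Q × (ℕ → Bool) | y.1 ∈ O x ∧ ∀ i ∈ Finset.range (m x), y.2 i = x.2 i} := by
      intro x
      have h1 : {y : Q × (ℕ → Bool) | y.1 ∈ O x ∧ ∀ i ∈ Finset.range (m x), y.2 i = x.2 i} =
          (Prod.fst ⁻¹' O x) ∩ ⋂ i ∈ Finset.range (m x),
            (fun y : Q × (ℕ → Bool) => y.2 i) ⁻¹' {x.2 i} := by
        ext y
        simp only [Set.mem_ofPred_eq, Set.mem_inter_iff, Set.mem_preimage, Set.mem_iInter,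
          Set.mem_singleton_iff]
      rw [h1]
      refine ((hO x).preimage continuous_fst).inter (isOpen_biInter_finset fun i _ => ?_)
      exact (isOpen_discrete _).preimage ((continuous_apply i).comp continuous_snd)
    obtain ⟨t, ht⟩ := isCompact_univ.elim_finite_subcover
      (fun x : Q × (ℕ → Bool) =>
        {y : Q × (ℕ → Bool) | y.1 ∈ O x ∧ ∀ i ∈ Finset.range (m x), y.2 i = x.2 i}) hopen
      (fun y _ => Set.mem_iUnion.2 ⟨y, hxO y, fun i _ => rfl⟩)
    refine ⟨t.sup m, fun q c c' h => ?_⟩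
    obtain ⟨x, hx, hq, hqi⟩ := Set.mem_iUnion₂.1 (ht (Set.mem_univ (q, c)))
    have hm : m x ≤ t.sup m := Finset.le_sup hx
    have h1 : F (q, c) = F x := hc x (q, c) hq fun i hi => hqi i (Finset.mem_range.2 hi)
    have h2 : F (q, c') = F x := hc x (q, c') hq fun i hi => by
      rw [← hqi i (Finset.mem_range.2 hi)]
      exact (h i (lt_of_lt_of_le hi hm)).symm
    rw [h1, h2]
  obtain ⟨n, hn⟩ := key
  refine ⟨fun x => x.2 n, ?_, ?_⟩
  · exact (IsLocallyConstant.iff_continuous _).2 ((continuous_apply n).comp continuous_snd)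
  · intro b x
    refine ⟨(x.1, Function.update x.2 n b), ?_, rfl, ?_⟩
    · refine hn x.1 _ _ fun i hi => ?_
      rw [Function.update_of_ne (ne_of_lt hi)]
    · show Function.update x.2 n b n = b
      rw [Function.update_self]

end Run7.h118.JR
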