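import Pool.Agent.Run7.h979.JR.Iface

/-!
# Project JR (helper979): piece SEP
-/

set_option autoImplicit false

noncomputable section

namespace Run7.h118.JR

open Run7.h979.JR

/-- the index type of the coordinate functions -/
abbrev Ix : Type := ((Σ k : ℕ, ZMod (ell k)) ⊕ (ℤ × ZMod 3)) ⊕ ((ℤ × ZMod 3) ⊕ ℕ)

/-- the coordinate functions -/
def GG : Ix → (DS × (ℕ → Bool)) → Bool
  | Sum.inl (Sum.inl p) => fun x => decide (x.1.1.1 p.1 = p.2)
  | Sum.inl (Sum.inr p) => fun x => decide (x.1.1.2.1 p.1 = p.2)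
  | Sum.inr (Sum.inl p) => fun x => decide (x.1.1.2.2 p.1 = p.2)
  | Sum.inr (Sum.inr n) => fun x => x.2 n

theorem lc_dec {X A : Type} [TopologicalSpace X] [TopologicalSpace A] [DiscreteTopology A]
    [DecidableEq A] (f : X → A) (hf : Continuous f) (a : A) : IsLocallyConstant fun x => decide (f x = a) := by
  have h1 : IsLocallyConstant f := (IsLocallyConstant.iff_continuous f).2 hf
  exact h1.comp (fun b => decide (b = a))

theorem GG_lc (i : Ix) : IsLocallyConstant (GG i) := by
  rcases i with (p | p) | (p | n)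
  · exact lc_dec (fun x : DS × (ℕ → Bool) => x.1.1.1 p.1)
      ((continuous_apply p.1).comp (continuous_fst.comp (continuous_subtype_val.comp
        continuous_fst))) p.2
  · exact lc_dec (fun x : DS × (ℕ → Bool) => x.1.1.2.1 p.1)
      ((continuous_apply p.1).comp (continuous_fst.comp (continuous_snd.comp
        (continuous_subtype_val.comp continuous_fst)))) p.2
  · exact lc_dec (fun x : DS × (ℕ → Bool) => x.1.1.2.2 p.1)
      ((continuous_apply p.1).comp (continuous_snd.comp (continuous_snd.comp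
        (continuous_subtype_val.comp continuous_fst)))) p.2
  · have h1 : Continuous fun x : DS × (ℕ → Bool) => x.2 n :=
      (continuous_apply n).comp continuous_snd
    exact (IsLocallyConstant.iff_continuous _).2 h1

theorem GG_sep (x x' : DS × (ℕ → Bool)) (h : ∀ i, GG i x = GG i x') : x = x' := by
  refine Prod.ext (Subtype.ext (Prod.ext ?_ (Prod.ext ?_ ?_))) ?_
  · funext k
    have h1 := h (Sum.inl (Sum.inl ⟨k, x'.1.1.1 k⟩))
    have h2 : decide (x.1.1.1 k = x'.1.1.1 k) = decide (x'.1.1.1 k = x'.1.1.1 k) := h1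
    rw [decide_eq_true rfl] at h2
    exact of_decide_eq_true h2
  · funext k
    have h1 := h (Sum.inl (Sum.inr (k, x'.1.1.2.1 k)))
    have h2 : decide (x.1.1.2.1 k = x'.1.1.2.1 k) = decide (x'.1.1.2.1 k = x'.1.1.2.1 k) := h1
    rw [decide_eq_true rfl] at h2
    exact of_decide_eq_true h2
  · funext k
    have h1 := h (Sum.inr (Sum.inl (k, x'.1.1.2.2 k)))
    have h2 : decide (x.1.1.2.2 k = x'.1.1.2.2 k) = decide (x'.1.1.2.2 k = x'.1.1.2.2 k) := h1
    rw [decide_eq_true rfl] at h2
    exact of_decide_eq_true h2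
  · funext n
    exact h (Sum.inr (Sum.inr n))

theorem t_SEP : S_SEP := by
  have : Nonempty Ix := ⟨Sum.inr (Sum.inr 0)⟩
  obtain ⟨f, hf⟩ := exists_surjective_nat Ix
  refine ⟨fun n => GG (f n), fun n => GG_lc (f n), fun x x' h => GG_sep x x' fun i => ?_⟩
  obtain ⟨n, rfl⟩ := hf i
  exact h n

end Run7.h118.JR
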